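import Pool.Agent.K1H46.Struct

/-!
The universal upper bound `R(G, ℤ/3) ≤ n + 8`, with equality exactly for the triangle.
-/

namespace Pool.Agent.Results.MP_2da030_co.UniversalBound

open Pool.Agent.K1H46.ZSR

/-- A `ℤ/3`-colouring of the edges of the complete graph on `N` vertices. -/
abbrev Colouring (N : ℕ) : Type := (⊤ : SimpleGraph (Fin N)).edgeSet → ZMod 3

/-- The colouring `f` of the edges of `K_N` has a zero-sum copy of `G`: there is a subgraph `H` of
`K_N` isomorphic to `G` such that the sum of `f` over the edges of `H` is zero. -/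
def HasZeroSumCopy {V : Type*} (G : SimpleGraph V) {N : ℕ} (f : Colouring N) : Prop :=
  ∃ H : (⊤ : SimpleGraph (Fin N)).Subgraph, Nonempty (G ≃g H.coe) ∧
    ∑ᶠ e : H.edgeSet, f ⟨e.1, H.edgeSet_subset e.2⟩ = 0

/-- The positive integers `R` such that for every `N ≥ R` every colouring of the edges of `K_N` has
a zero-sum copy of `G`. -/
def admissible {V : Type*} (G : SimpleGraph V) : Set ℕ :=
  {R | 0 < R ∧ ∀ N, R ≤ N → ∀ f : Colouring N, HasZeroSumCopy G f}

/-- The zero-sum Ramsey number `R(G, ℤ/3)`. -/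
noncomputable def zeroSumRamsey {V : Type*} (G : SimpleGraph V) : ℕ := sInf (admissible G)

open Classical in
/-- extension of a colouring to all unordered pairs -/
noncomputable def ext {N : ℕ} (f : Colouring N) (e : Sym2 (Fin N)) : ZMod 3 :=
  if h : e ∈ (⊤ : SimpleGraph (Fin N)).edgeSet then f ⟨e, h⟩ else 0

/-- the colouring as a function of two vertices -/
noncomputable def two {N : ℕ} (f : Colouring N) (x y : Fin N) : ZMod 3 := ext f s(x, y)

theorem two_symm {N : ℕ} (f : Colouring N) (x y : Fin N) : two f x y = two f y x := by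
  unfold two; rw [Sym2.eq_swap]

theorem sum_copy {V : Type*} [Fintype V] [DecidableEq V] (G : SimpleGraph V) [DecidableRel G.Adj]
    {N : ℕ} (f : Colouring N) (c : SimpleGraph.Copy G (⊤ : SimpleGraph (Fin N))) :
    ∑ᶠ e : c.toSubgraph.edgeSet, f ⟨e.1, c.toSubgraph.edgeSet_subset e.2⟩ =
      ∑ e ∈ G.edgeFinset, ext f (e.map c) := by
  have h1 : ∑ᶠ e : c.toSubgraph.edgeSet, f ⟨e.1, c.toSubgraph.edgeSet_subset e.2⟩ =
      ∑ᶠ e : c.toSubgraph.edgeSet, ext f e.1 := by
    congr 1
    funext e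
    unfold ext
    rw [dif_pos (c.toSubgraph.edgeSet_subset e.2)]
  have h2 : c.toSubgraph.edgeSet = Sym2.map c '' G.edgeSet := by
    unfold SimpleGraph.Copy.toSubgraph
    rw [SimpleGraph.Subgraph.edgeSet_map]
    simp
  have hinj : Function.Injective (c : V → Fin N) := c.injective
  rw [h1, finsum_set_coe_eq_finsum_mem (s := c.toSubgraph.edgeSet) (f := ext f), h2,
    finsum_mem_image ((Sym2.map.injective hinj).injOn),
    ← finsum_mem_coe_finset, SimpleGraph.coe_edgeFinset]

theorem T_eq_two_mul {V X : Type*} [Fintype V] [DecidableEq V] [DecidableEq X] (G : SimpleGraph V)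
    [DecidableRel G.Adj] (g : Sym2 X → ZMod 3) (φ : V → X) :
    T (aG G) (fun x y => g s(x, y)) φ = 2 * ∑ e ∈ G.edgeFinset, g (e.map φ) := by
  have h1 : T (aG G) (fun x y => g s(x, y)) φ =
      ∑ p ∈ (Finset.univ : Finset (V × V)).filter (fun p => G.Adj p.1 p.2),
        g (Sym2.map φ s(p.1, p.2)) := by
    unfold T
    rw [Finset.sum_filter, ← Finset.univ_product_univ, Finset.sum_product]
    refine Finset.sum_congr rfl (fun u _ => Finset.sum_congr rfl (fun v _ => ?_))
    by_cases h : G.Adj u v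
    · rw [aG_of_adj h, if_pos h, one_mul, Sym2.map_mk]
    · rw [aG_of_not h, if_neg h, zero_mul]
  rw [h1, ← Finset.sum_fiberwise_of_maps_to (t := G.edgeFinset)
    (g := fun p : V × V => s(p.1, p.2)) (by
      intro p hp
      rw [Finset.mem_filter] at hp
      rw [SimpleGraph.mem_edgeFinset, SimpleGraph.mem_edgeSet]
      exact hp.2), Finset.mul_sum]
  refine Finset.sum_congr rfl (fun e he => ?_)
  induction e using Sym2.ind with
  | _ a b =>
    rw [SimpleGraph.mem_edgeFinset, SimpleGraph.mem_edgeSet] at he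
    have h2 : ((Finset.univ : Finset (V × V)).filter (fun p => G.Adj p.1 p.2)).filter
        (fun p => s(p.1, p.2) = s(a, b)) = {(a, b), (b, a)} := by
      ext p
      rw [Finset.mem_filter, Finset.mem_filter, Finset.mem_insert, Finset.mem_singleton,
        Sym2.eq_iff, Prod.ext_iff, Prod.ext_iff]
      constructor
      · rintro ⟨-, h⟩; exact h
      · rintro (⟨h1, h2⟩ | ⟨h1, h2⟩)
        · refine ⟨⟨Finset.mem_univ _, ?_⟩, Or.inl ⟨h1, h2⟩⟩
          simp only at h1 h2; rw [h1, h2]; exact he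
        · refine ⟨⟨Finset.mem_univ _, ?_⟩, Or.inr ⟨h1, h2⟩⟩
          simp only at h1 h2; rw [h1, h2]; exact he.symm
    rw [h2, Finset.sum_insert (by
      rw [Finset.mem_singleton, Prod.ext_iff]; exact fun h => he.ne h.1), Finset.sum_singleton]
    simp only
    rw [Sym2.eq_swap (a := b) (b := a)]
    ring

theorem copy_of_placement {V : Type*} [Fintype V] [DecidableEq V] (G : SimpleGraph V)
    {N : ℕ} (f : Colouring N) {φ : V → Fin N} (hφ : Function.Injective φ)
    (h0 : T (aG G) (two f) φ = 0) : HasZeroSumCopy G f := by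
  classical
  let c : SimpleGraph.Copy G (⊤ : SimpleGraph (Fin N)) :=
    ⟨⟨φ, fun {a b} h => by
      rw [SimpleGraph.top_adj]; exact fun he => h.ne (hφ he)⟩, hφ⟩
  refine ⟨c.toSubgraph, ⟨c.isoToSubgraph⟩, ?_⟩
  rw [sum_copy G f c]
  have h1 := T_eq_two_mul G (ext f) φ
  have h2 : (2 : ZMod 3) * ∑ e ∈ G.edgeFinset, ext f (e.map φ) = 0 := by rw [← h1]; exact h0
  have h22 : (2 : ZMod 3) ≠ 0 := by decide
  have hf3 : Fact (Nat.Prime 3) := ⟨Nat.prime_three⟩
  exact (mul_eq_zero.1 h2).resolve_left h22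

theorem placement_of_copy {V : Type*} [Fintype V] [DecidableEq V] (G : SimpleGraph V)
    {N : ℕ} (f : Colouring N) (h : HasZeroSumCopy G f) :
    ∃ φ : V → Fin N, Function.Injective φ ∧ T (aG G) (two f) φ = 0 := by
  classical
  obtain ⟨H, hiso, hsum⟩ := h
  have hH : H ∈ Set.range (SimpleGraph.Copy.toSubgraph (A := G) (B := (⊤ : SimpleGraph (Fin N)))) := by
    rw [SimpleGraph.Copy.range_toSubgraph]; exact hiso
  obtain ⟨c, rfl⟩ := hH
  rw [sum_copy G f c] at hsum
  refine ⟨c, c.injective, ?_⟩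
  have h1 := T_eq_two_mul G (ext f) c
  change T (aG G) (fun x y => ext f s(x, y)) c = 0
  rw [h1, hsum, mul_zero]

theorem sum_aG {V : Type*} [Fintype V] [DecidableEq V] (G : SimpleGraph V)
    (h3 : 3 ∣ G.edgeSet.ncard) : ∑ u, ∑ v, aG G u v = 0 := by
  classical
  have h1 := T_eq_two_mul G (fun _ : Sym2 Unit => (1 : ZMod 3)) (fun _ : V => ())
  unfold T at h1
  simp only [mul_one, Finset.sum_const, nsmul_eq_mul] at h1
  rw [h1]
  have h2 : G.edgeFinset.card = G.edgeSet.ncard := by
    rw [← SimpleGraph.coe_edgeFinset, Set.ncard_coe_finset]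
  rw [h2, (ZMod.natCast_eq_zero_iff _ 3).2 h3, mul_zero]

/-- upper bounds -/
theorem upper {V : Type*} [Fintype V] [DecidableEq V] (G : SimpleGraph V)
    (h3 : 3 ∣ G.edgeSet.ncard) (N : ℕ) (hN : Fintype.card V + 7 ≤ N)
    (h11 : Nonempty (G ≃g (⊤ : SimpleGraph (Fin 3))) → 11 ≤ N) (f : Colouring N) :
    HasZeroSumCopy G f := by
  obtain ⟨φ, hφ, h0⟩ := main_exists G (two f) (two_symm f) (sum_aG G h3)
    (by rw [Fintype.card_fin]; exact hN) (by
      rintro ⟨C, hC3, hC⟩
      rw [Fintype.card_fin]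
      have hCV : C.card ≤ Fintype.card V := Finset.card_le_univ C
      rcases Nat.lt_or_ge (Fintype.card V) 4 with hV | hV
      · apply h11
        have hCu : C = Finset.univ := Finset.eq_univ_of_card C (by omega)
        have hV3 : Fintype.card V = 3 := by omega
        have e := Fintype.equivFinOfCardEq hV3
        refine ⟨⟨e, ?_⟩⟩
        intro a b
        rw [SimpleGraph.top_adj, hC, hCu]
        simp
      · omega)
  exact copy_of_placement G f hφ h0

/-- the extremal colouring of `K_10` -/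
noncomputable def col10 : Colouring 10 := fun e => Sym2.lift ⟨f10, f10_symm⟩ e.1

theorem two_col10 {x y : Fin 10} (h : x ≠ y) : two col10 x y = f10 x y := by
  unfold two ext
  rw [dif_pos (by rw [SimpleGraph.mem_edgeSet, SimpleGraph.top_adj]; exact h)]
  rfl

/-- lower bound for the triangle -/
theorem lower {V : Type*} [Fintype V] [DecidableEq V] (G : SimpleGraph V)
    (hG : Nonempty (G ≃g (⊤ : SimpleGraph (Fin 3)))) : ¬ HasZeroSumCopy G col10 := by
  intro h
  obtain ⟨φ, hφ, h0⟩ := placement_of_copy G col10 h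
  obtain ⟨ψ⟩ := hG
  have h1 : ∀ g : V → ZMod 3, ∑ u, g u = g (ψ.symm 0) + g (ψ.symm 1) + g (ψ.symm 2) := by
    intro g
    rw [← Equiv.sum_comp ψ.symm.toEquiv g, Fin.sum_univ_three]
    rfl
  have hadj : ∀ i j : Fin 3, i ≠ j → G.Adj (ψ.symm i) (ψ.symm j) := by
    intro i j hij
    rw [ψ.symm.map_adj_iff, SimpleGraph.top_adj]
    exact hij
  have hne : ∀ i j : Fin 3, i ≠ j → φ (ψ.symm i) ≠ φ (ψ.symm j) :=
    fun i j hij he => (hadj i j hij).ne (hφ he)
  unfold T at h0
  rw [h1, h1, h1, h1, aG_self, aG_self, aG_self, aG_of_adj (hadj 0 1 (by decide)),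
    aG_of_adj (hadj 0 2 (by decide)), aG_of_adj (hadj 1 0 (by decide)),
    aG_of_adj (hadj 1 2 (by decide)), aG_of_adj (hadj 2 0 (by decide)),
    aG_of_adj (hadj 2 1 (by decide)), two_symm _ (φ (ψ.symm 1)) (φ (ψ.symm 0)),
    two_symm _ (φ (ψ.symm 2)) (φ (ψ.symm 0)), two_symm _ (φ (ψ.symm 2)) (φ (ψ.symm 1)),
    two_col10 (hne 0 1 (by decide)), two_col10 (hne 0 2 (by decide)),
    two_col10 (hne 1 2 (by decide))] at h0
  apply f10_noTri _ _ _ (hne 0 1 (by decide)) (hne 0 2 (by decide)) (hne 1 2 (by decide))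
  have t3 : (3 : ZMod 3) = 0 := by decide
  linear_combination 2 * h0 - (f10 (φ (ψ.symm 0)) (φ (ψ.symm 1)) +
    f10 (φ (ψ.symm 0)) (φ (ψ.symm 2)) + f10 (φ (ψ.symm 1)) (φ (ψ.symm 2))) * t3

/-- **The universal upper bound.** Let `G` be a finite graph with `n` vertices whose number of edges
is divisible by three. Then `R(G, ℤ/3) ≤ n + 8` (the defining set of the number being non-empty),
and `R(G, ℤ/3) = n + 8` if and only if `G` is isomorphic to the triangle. -/
theorem result {V : Type*} [Fintype V] (G : SimpleGraph V) (h3 : 3 ∣ G.edgeSet.ncard) :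
    (admissible G).Nonempty ∧ zeroSumRamsey G ≤ Fintype.card V + 8 ∧
      (zeroSumRamsey G = Fintype.card V + 8 ↔ Nonempty (G ≃g (⊤ : SimpleGraph (Fin 3)))) := by
  classical
  have hcard3 : Nonempty (G ≃g (⊤ : SimpleGraph (Fin 3))) → Fintype.card V = 3 := by
    rintro ⟨e⟩
    rw [Fintype.card_congr e.toEquiv, Fintype.card_fin]
  have hmem8 : Fintype.card V + 8 ∈ admissible G := by
    refine ⟨by omega, fun N hN f => upper G h3 N (by omega) (fun hG => ?_) f⟩
    have := hcard3 hG
    omega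
  refine ⟨⟨_, hmem8⟩, Nat.sInf_le hmem8, ?_⟩
  constructor
  · intro heq
    by_contra hG
    have hmem7 : Fintype.card V + 7 ∈ admissible G :=
      ⟨by omega, fun N hN f => upper G h3 N hN (fun h => absurd h hG) f⟩
    have : zeroSumRamsey G ≤ Fintype.card V + 7 := Nat.sInf_le hmem7
    omega
  · intro hG
    apply le_antisymm (Nat.sInf_le hmem8)
    apply le_csInf ⟨_, hmem8⟩
    rintro R ⟨-, hR⟩
    rw [hcard3 hG]
    by_contra hlt
    exact lower G hG (hR 10 (by omega) col10)

end Pool.Agent.Results.MP_2da030_co.UniversalBound
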